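import Pool.Agent.helper29.NS.Spec2

/-!
Module FP of project ns: a strictly convex boundary point exists.
-/

namespace NS

open MeasureTheory Filter Topology Set

theorem FP_second (f : ℝ → ℝ) (hf : ContDiff ℝ 2 f) (h0 : f 0 = 0) (A B : ℝ) (hB : B < 0)
    (hmax : ∀ᶠ s in 𝓝 (0 : ℝ), 2 * s * A + 2 * f s * B + s ^ 2 + f s ^ 2 ≤ 0) :
    0 < deriv (deriv f) 0 := by
  have hd : Differentiable ℝ f := hf.differentiable (by norm_num)
  have hd2 : Differentiable ℝ (deriv f) := by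
    have hf2 : ContDiff ℝ (1 + 1) f := hf
    have : ContDiff ℝ 1 (deriv f) := (contDiff_succ_iff_deriv.1 hf2).2.2
    exact this.differentiable (by norm_num)
  set g : ℝ → ℝ := fun s => 2 * s * A + 2 * f s * B + s ^ 2 + f s ^ 2 with hg
  have hg0 : g 0 = 0 := by simp [hg, h0]
  have hg1 : ∀ s, HasDerivAt g (2 * A + 2 * deriv f s * B + 2 * s + 2 * f s * deriv f s) s := by
    intro s
    have hfs := (hd s).hasDerivAt
    have h1 : HasDerivAt (fun s : ℝ => 2 * s * A) (2 * A) s := by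
      simpa using ((hasDerivAt_id s).const_mul 2).mul_const A
    have h2 : HasDerivAt (fun s : ℝ => 2 * f s * B) (2 * deriv f s * B) s :=
      (hfs.const_mul 2).mul_const B
    have h3 : HasDerivAt (fun s : ℝ => s ^ 2) (2 * s) s := by simpa using hasDerivAt_pow 2 s
    have h4 : HasDerivAt (fun s : ℝ => f s ^ 2) (2 * f s * deriv f s) s := by
      have := hfs.pow 2
      simp only [Nat.cast_ofNat, Nat.add_one_sub_one, pow_one] at this
      exact this
    exact ((h1.add h2).add h3).add h4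
  have hdg : deriv g = fun s => 2 * A + 2 * deriv f s * B + 2 * s + 2 * f s * deriv f s :=
    funext fun s => (hg1 s).deriv
  have hg2 : HasDerivAt (deriv g)
      (2 * deriv (deriv f) 0 * B + 2 + (2 * deriv f 0 * deriv f 0 + 2 * f 0 * deriv (deriv f) 0)) 0 := by
    rw [hdg]
    have hfs := (hd 0).hasDerivAt
    have hfs2 := (hd2 0).hasDerivAt
    have h2 : HasDerivAt (fun s : ℝ => 2 * deriv f s * B) (2 * deriv (deriv f) 0 * B) 0 :=
      (hfs2.const_mul 2).mul_const B
    have h3 : HasDerivAt (fun s : ℝ => 2 * s) 2 0 := by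
      simpa using (hasDerivAt_id (0 : ℝ)).const_mul 2
    have h4 : HasDerivAt (fun s : ℝ => 2 * f s * deriv f s)
        (2 * deriv f 0 * deriv f 0 + 2 * f 0 * deriv (deriv f) 0) 0 :=
      (hfs.const_mul 2).mul hfs2
    have h5 := (((hasDerivAt_const (0 : ℝ) (2 * A)).add h2).add h3).add h4
    rw [zero_add] at h5
    exact h5
  have hlm : IsLocalMax g 0 := by
    filter_upwards [hmax] with s hs
    rw [hg0]
    exact hs
  have hg1z : deriv g 0 = 0 := hlm.deriv_eq_zero
  by_contra hcon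
  push Not at hcon
  have hpos : 0 < deriv (deriv g) 0 := by
    rw [hg2.deriv, h0]
    nlinarith [sq_nonneg (deriv f 0), mul_nonneg_of_nonpos_of_nonpos hcon hB.le]
  have hlmin := isLocalMin_of_deriv_deriv_pos hpos hg1z (hg1 0).continuousAt
  have hz : g =ᶠ[𝓝 0] fun _ => 0 := by
    filter_upwards [hlm, hlmin] with s h1 h2
    rw [hg0] at h1 h2
    exact le_antisymm h1 h2
  have h6 : deriv g =ᶠ[𝓝 0] deriv (fun _ : ℝ => (0 : ℝ)) := hz.deriv
  have h7 : deriv (deriv g) 0 = 0 := by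
    rw [h6.deriv_eq]
    simp
  linarith

theorem FP : FP_stmt := by
  intro Ω hΩ hne hb hch
  have hcpt : IsCompact (closure Ω) := hb.isCompact_closure
  have hcont : Continuous (fun q : ℝ × ℝ => q.1 ^ 2 + q.2 ^ 2) := by fun_prop
  obtain ⟨c, hc, hcmax⟩ := hcpt.exists_isMaxOn hne.closure hcont.continuousOn
  have hmax : ∀ q ∈ closure Ω, q.1 ^ 2 + q.2 ^ 2 ≤ c.1 ^ 2 + c.2 ^ 2 := fun q hq => hcmax hq
  have hcn : c ∉ Ω := by
    intro hcΩ
    obtain ⟨e, he, hball⟩ := Metric.isOpen_iff.1 hΩ c hcΩ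
    have hmove : ∀ σ : ℝ, |σ| = 1 → (c.1 + σ * (e / 2)) ^ 2 + c.2 ^ 2 ≤ c.1 ^ 2 + c.2 ^ 2 := by
      intro σ hσ
      apply hmax (c.1 + σ * (e / 2), c.2)
      apply subset_closure
      apply hball
      rw [Metric.mem_ball, Prod.dist_eq, max_lt_iff]
      constructor
      · rw [Real.dist_eq]
        simp only [add_sub_cancel_left, abs_mul, hσ, one_mul]
        rw [abs_of_pos (by positivity)]
        linarith
      · simp [he]
    have h1 := hmove 1 (by simp)
    have h2 := hmove (-1) (by simp)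
    nlinarith
  have hfr : c ∈ frontier Ω := by
    rw [frontier, hΩ.interior_eq]
    exact ⟨hc, hcn⟩
  obtain ⟨θ, δ, f, hC⟩ := hch c hfr
  refine ⟨c, hfr, θ, δ, f, hC, ?_⟩
  set A := c.1 * Real.cos θ + c.2 * Real.sin θ with hA
  set B := -(c.1 * Real.sin θ) + c.2 * Real.cos θ with hB
  have hN : ∀ s r, (pt θ c s r).1 ^ 2 + (pt θ c s r).2 ^ 2 =
      c.1 ^ 2 + c.2 ^ 2 + (2 * s * A + 2 * r * B + s ^ 2 + r ^ 2) := by
    intro s r
    simp only [pt, hA, hB]
    have := Real.sin_sq_add_cos_sq θ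
    linear_combination (s ^ 2 + r ^ 2) * this
  have hin : ∀ s r, |s| < δ → |r| < δ → f s < r → 2 * s * A + 2 * r * B + s ^ 2 + r ^ 2 ≤ 0 := by
    intro s r hs hr hfr
    have h1 := hmax _ (subset_closure ((hC.graph s r hs hr).2 hfr))
    rw [hN] at h1
    linarith
  have hδ := hC.pos
  have hBneg : B < 0 := by
    have h1 := hin 0 (δ / 2) (by simpa using hδ) (by rw [abs_of_pos (by positivity)]; linarith)
      (by rw [hC.f0]; positivity)
    nlinarith
  apply FP_second f hC.smooth hC.f0 A B hBneg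
  have hfc : Continuous f := hC.smooth.continuous
  have h1 : ∀ᶠ s in 𝓝 (0 : ℝ), |s| < δ := by
    have : Tendsto (fun s : ℝ => |s|) (𝓝 0) (𝓝 0) := by
      simpa using (continuous_abs.tendsto (0 : ℝ))
    exact this.eventually (gt_mem_nhds hδ)
  have h2 : ∀ᶠ s in 𝓝 (0 : ℝ), |f s| < δ := by
    have : Tendsto (fun s : ℝ => |f s|) (𝓝 0) (𝓝 0) := by
      have h5 : Continuous (fun s : ℝ => |f s|) := continuous_abs.comp hfc
      have h6 := h5.tendsto (0 : ℝ)
      simp only [hC.f0, abs_zero] at h6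
      exact h6
    exact this.eventually (gt_mem_nhds hδ)
  filter_upwards [h1, h2] with s hs1 hs2
  have hcφ : Continuous (fun r : ℝ => 2 * s * A + 2 * r * B + s ^ 2 + r ^ 2) := by fun_prop
  have ht : Tendsto (fun r : ℝ => 2 * s * A + 2 * r * B + s ^ 2 + r ^ 2) (𝓝[>] (f s))
      (𝓝 (2 * s * A + 2 * f s * B + s ^ 2 + f s ^ 2)) :=
    (hcφ.tendsto (f s)).mono_left nhdsWithin_le_nhds
  apply le_of_tendsto ht
  have h3 : Ioo (f s) δ ∈ 𝓝[>] (f s) := Ioo_mem_nhdsGT (abs_lt.1 hs2).2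
  filter_upwards [h3] with r hr
  apply hin s r hs1 _ hr.1
  rw [abs_lt]
  exact ⟨by linarith [(abs_lt.1 hs2).1, hr.1], hr.2⟩

end NS

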