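import Pool.Agent.helper29.NS.SpecD

/-!
# ns:AB. Baire category in time
-/

set_option autoImplicit false

namespace NS

open MeasureTheory Filter Topology Set

theorem AB_disc {c : ℝ × ℝ} {V : Set (ℝ × ℝ)} (hV : V ∈ 𝓝 c) :
    ∃ k : ℕ, Dsc c (1 / ((k : ℝ) + 1)) ⊆ V := by
  obtain ⟨r, hr, hb⟩ := Metric.mem_nhds_iff.1 hV
  obtain ⟨k, hk⟩ := exists_nat_one_div_lt hr
  refine ⟨k, fun q hq => hb ?_⟩
  have h0 : (0 : ℝ) < 1 / ((k : ℝ) + 1) := by positivity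
  have h1 : (q.1 - c.1) ^ 2 + (q.2 - c.2) ^ 2 < (1 / ((k : ℝ) + 1)) ^ 2 := hq
  have h2 : |q.1 - c.1| < 1 / ((k : ℝ) + 1) := by
    apply abs_lt_of_sq_lt_sq _ h0.le
    nlinarith [sq_nonneg (q.2 - c.2)]
  have h3 : |q.2 - c.2| < 1 / ((k : ℝ) + 1) := by
    apply abs_lt_of_sq_lt_sq _ h0.le
    nlinarith [sq_nonneg (q.1 - c.1)]
  rw [Metric.mem_ball, Prod.dist_eq, Real.dist_eq, Real.dist_eq]
  exact max_lt (h2.trans hk) (h3.trans hk)

theorem AB : AB_stmt := by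
  intro Ω m n c α β hαβ hm hn h
  set F : ℕ → Set ℝ := fun k =>
    {t | ∀ q ∈ Ω ∩ Dsc c (1 / ((k : ℝ) + 1)), m (t, q) = 0 ∧ n (t, q) = 0} with hF
  have hFc : ∀ k, IsClosed (F k) := by
    intro k
    have e : F k = ⋂ q ∈ Ω ∩ Dsc c (1 / ((k : ℝ) + 1)), {t | m (t, q) = 0 ∧ n (t, q) = 0} := by
      ext t
      simp only [hF, mem_iInter]
      rfl
    rw [e]
    refine isClosed_biInter fun q _ => ?_
    exact (isClosed_eq (hm.comp (by fun_prop)) continuous_const).inter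
      (isClosed_eq (hn.comp (by fun_prop)) continuous_const)
  have hU : (⋃ k, (F k ∪ (Ioo α β)ᶜ)) = univ := by
    rw [eq_univ_iff_forall]
    intro t
    rw [mem_iUnion]
    by_cases ht : t ∈ Ioo α β
    · obtain ⟨V, hV, hz⟩ := h t ht
      obtain ⟨k, hk⟩ := AB_disc hV
      exact ⟨k, Or.inl fun q hq => hz q ⟨hq.1, hk hq.2⟩⟩
    · exact ⟨0, Or.inr ht⟩
  have hd : Dense (⋃ k, interior (F k ∪ (Ioo α β)ᶜ)) :=
    dense_iUnion_interior_of_closed (fun k => (hFc k).union isOpen_Ioo.isClosed_compl) hU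
  obtain ⟨t, ht1, ht2⟩ := hd.inter_open_nonempty (Ioo α β) isOpen_Ioo (nonempty_Ioo.2 hαβ)
  obtain ⟨k, hk⟩ := mem_iUnion.1 ht2
  obtain ⟨δ, hδ, hball⟩ := Metric.isOpen_iff.1 (isOpen_interior.inter isOpen_Ioo) t
    (⟨hk, ht1⟩ : t ∈ interior (F k ∪ (Ioo α β)ᶜ) ∩ Ioo α β)
  have key : ∀ s, |s - t| < δ → s ∈ F k ∧ s ∈ Ioo α β := by
    intro s hs
    have h1 := hball (show s ∈ Metric.ball t δ by rw [Metric.mem_ball, Real.dist_eq]; exact hs)
    refine ⟨?_, h1.2⟩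
    rcases interior_subset h1.1 with h2 | h2
    · exact h2
    · exact absurd h1.2 h2
  have k1 := key (t - δ / 2) (by rw [abs_lt]; constructor <;> linarith)
  have k2 := key (t + δ / 2) (by rw [abs_lt]; constructor <;> linarith)
  refine ⟨t - δ / 2, t + δ / 2, 1 / ((k : ℝ) + 1), k1.2.1.le, by linarith, k2.2.2.le,
    by positivity, ?_⟩
  intro s hs q hq
  exact (key s (by rw [abs_lt]; constructor <;> linarith [hs.1, hs.2])).1 q hq

end NS

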