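import Pool.Agent.helper29.NS.SpecC

/-!
# ns:CX2. The annulus is swept
-/

set_option autoImplicit false

namespace NS

open MeasureTheory Filter Topology Set

theorem CX2_sqrt {ρ R : ℝ} {q : ℝ × ℝ} (hρ : 0 ≤ ρ) (hR : ρ < R) (hq : q ∈ Ring ρ R) :
    ρ < Real.sqrt (q.1 ^ 2 + q.2 ^ 2) ∧ Real.sqrt (q.1 ^ 2 + q.2 ^ 2) < R := by
  obtain ⟨h1, h2⟩ := hq
  refine ⟨(Real.lt_sqrt hρ).2 h1, ?_⟩
  exact (Real.sqrt_lt' (by linarith)).2 h2

theorem CX2_ring {ρ R r : ℝ} (hρ : 0 ≤ ρ) (h1 : ρ < r) (h2 : r < R) :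
    ((r, 0) : ℝ × ℝ) ∈ Ring ρ R := by
  constructor
  · show ρ ^ 2 < r ^ 2 + 0 ^ 2
    nlinarith
  · show r ^ 2 + 0 ^ 2 < R ^ 2
    nlinarith

theorem CX2_path (t r : ℝ) :
    HasDerivAt (fun r : ℝ => ((t, (r, 0)) : ℝ × ℝ × ℝ)) ((0, (1, 0)) : ℝ × ℝ × ℝ) r :=
  (hasDerivAt_const r t).prodMk ((hasDerivAt_id r).prodMk (hasDerivAt_const r 0))

theorem CX2_deriv {f : ℝ × ℝ × ℝ → ℝ} (hf : ContDiff ℝ 3 f) (t r : ℝ) :
    HasDerivAt (fun r : ℝ => f (t, (r, 0))) (dx f (t, (r, 0))) r := by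
  have h1 : HasFDerivAt f (fderiv ℝ f (t, (r, 0))) (t, (r, 0)) :=
    ((hf.differentiable (by norm_num)).differentiableAt).hasFDerivAt
  exact h1.comp_hasDerivAt r (CX2_path t r)

theorem CX2_rot (hRX : RX_stmt) {I : Set ℝ} {ρ R : ℝ} {a b : ℝ × ℝ × ℝ → ℝ}
    (hRI : RI I (Ring ρ R) a b) {t : ℝ} (ht : t ∈ I) {q : ℝ × ℝ} (hq : q ∈ Ring ρ R)
    (h1 : a (t, (Real.sqrt (q.1 ^ 2 + q.2 ^ 2), 0)) = 0)
    (h2 : b (t, (Real.sqrt (q.1 ^ 2 + q.2 ^ 2), 0)) = 0) : a (t, q) = 0 ∧ b (t, q) = 0 := by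
  obtain ⟨-, -, -, θ, hθ⟩ := hRX 0 q
  obtain ⟨e1, e2⟩ := hRI θ t ht q hq
  have e3 : rot (-θ) q = (Real.sqrt (q.1 ^ 2 + q.2 ^ 2), 0) := by
    have h := (hRX θ (Real.sqrt (q.1 ^ 2 + q.2 ^ 2), 0)).2.2.1
    rw [← hθ] at h
    exact h
  unfold rfa at e1
  unfold rfb at e2
  simp only [e3, h1, h2] at e1 e2
  constructor
  · rw [← e1]; ring
  · rw [← e2]; ring

theorem CX2 (hKF : KF_stmt) (hRX : RX_stmt) (hRR : RR_stmt) (hYI : YI_stmt) : CX2_stmt := by
  intro Ω ν R t1 G a1 b1 a2 b2 a b m n h ρ hρ hρR hsub hRI1 hRI2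
  have D := h.dmm
  have hfr : ∀ q ∈ Circ R, q ∈ frontier Ω := fun q hq => ((hKF Ω R h.op h.oc).2 q hq).1
  have hRI : RI (Iio t1) (Ring ρ R) a b := by
    intro α t ht q hq
    obtain ⟨e1, e2⟩ := hRI1 α t ht q hq
    obtain ⟨e3, e4⟩ := hRI2 α t ht q hq
    unfold rfa at e1 e3 ⊢
    unfold rfb at e2 e4 ⊢
    rw [h.ha, h.hb]
    simp only
    constructor
    · linear_combination e1 - e3
    · linear_combination e2 - e4
  have hRIm : RI (Iio t1) (Ring ρ R) m n := by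
    intro α t ht q hq
    obtain ⟨e1, e2⟩ := hRI1 α t ht q hq
    obtain ⟨e3, e4⟩ := hRI2 α t ht q hq
    unfold rfa at e1 e3 ⊢
    unfold rfb at e2 e4 ⊢
    rw [h.hm, h.hn]
    simp only
    constructor
    · linear_combination e1 / 2 + e3 / 2
    · linear_combination e2 / 2 + e4 / 2
  -- radial facts
  have fab : ∀ t < t1, ∀ r, ρ < r → r < R → a (t, (r, 0)) = 0 ∧ dx a (t, (r, 0)) = 0 ∧
      r * dy a (t, (r, 0)) = -b (t, (r, 0)) ∧ dy b (t, (r, 0)) = 0 := by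
    intro t ht r h1 h2
    have hri : RI {t} (Ring ρ R) a b := fun α s hs q hq => by
      have hs' : s = t := hs
      rw [hs']
      exact hRI α t ht q hq
    have key := hRR R ρ t a b hρ hρR (D.ca.of_le (by norm_num)) (D.cb.of_le (by norm_num)) hri
      (fun q hq => D.da t q (hsub hq)) (fun q hq => ⟨(D.bc t q (hfr q hq)).1,
        (D.bc t q (hfr q hq)).2.1⟩) (r, 0) (CX2_ring hρ h1 h2)
    obtain ⟨k1, k2, k3, k4, -⟩ := key.2.2 r h1 h2
    exact ⟨k1, k2, k3, k4⟩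
  have fmn : ∀ t < t1, ∀ r, ρ < r → r < R → m (t, (r, 0)) = 0 ∧ dx m (t, (r, 0)) = 0 ∧
      r * dy m (t, (r, 0)) = -n (t, (r, 0)) ∧ dy n (t, (r, 0)) = 0 := by
    intro t ht r h1 h2
    have hri : RI {t} (Ring ρ R) m n := fun α s hs q hq => by
      have hs' : s = t := hs
      rw [hs']
      exact hRIm α t ht q hq
    have key := hRR R ρ t m n hρ hρR (D.cm.of_le (by norm_num)) (D.cn.of_le (by norm_num)) hri
      (fun q hq => D.dm t q (hsub hq)) (fun q hq => ⟨(D.bc t q (hfr q hq)).2.2.1,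
        (D.bc t q (hfr q hq)).2.2.2⟩) (r, 0) (CX2_ring hρ h1 h2)
    obtain ⟨k1, k2, k3, k4, -⟩ := key.2.2 r h1 h2
    exact ⟨k1, k2, k3, k4⟩
  -- the product vanishes
  have hprod : ∀ t < t1, ∀ r, ρ < r → r < R → b (t, (r, 0)) * n (t, (r, 0)) = 0 := by
    intro t ht r h1 h2
    have hd : ∀ x : ℝ, HasDerivAt (fun r : ℝ => b (t, (r, 0)) * n (t, (r, 0)))
        (dx b (t, (x, 0)) * n (t, (x, 0)) + b (t, (x, 0)) * dx n (t, (x, 0))) x := fun x =>
      (CX2_deriv D.cb t x).mul (CX2_deriv D.cn t x)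
    obtain ⟨c, hc, hc2⟩ := exists_hasDerivAt_eq_slope
      (fun r : ℝ => b (t, (r, 0)) * n (t, (r, 0)))
      (fun x => dx b (t, (x, 0)) * n (t, (x, 0)) + b (t, (x, 0)) * dx n (t, (x, 0))) h2
      (fun x _ => (hd x).continuousAt.continuousWithinAt) (fun x _ => hd x)
    have hc1 : ρ < c := h1.trans hc.1
    have hc0 : 0 < c := lt_of_le_of_lt hρ hc1
    obtain ⟨p1, p2, p3, p4⟩ := fab t ht c hc1 hc.2
    obtain ⟨q1, q2, q3, q4⟩ := fmn t ht c hc1 hc.2
    have htr := D.tr t (c, 0) (hsub (CX2_ring hρ hc1 hc.2))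
    rw [p2, q2, p4, q4] at htr
    have hz : dx b (t, (c, 0)) * n (t, (c, 0)) + b (t, (c, 0)) * dx n (t, (c, 0)) = 0 := by
      have e : c * (dy m (t, (c, 0)) * dx b (t, (c, 0)) + dx n (t, (c, 0)) * dy a (t, (c, 0)))
          = 0 := by
        rw [show dy m (t, (c, 0)) * dx b (t, (c, 0)) + dx n (t, (c, 0)) * dy a (t, (c, 0)) = 0 by
          linarith]
        ring
      have e2 : (c * dy m (t, (c, 0))) * dx b (t, (c, 0)) +
          dx n (t, (c, 0)) * (c * dy a (t, (c, 0))) = 0 := by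
        linear_combination e
      rw [q3, p3] at e2
      linarith
    rw [hz] at hc2
    have hRc : ((R, 0) : ℝ × ℝ) ∈ Circ R := by
      show R ^ 2 + 0 ^ 2 = R ^ 2
      ring
    have hbR : b (t, (R, 0)) = 0 := (D.bc t _ (hfr _ hRc)).2.1
    rw [hbR, zero_mul, zero_sub] at hc2
    have hne : R - r ≠ 0 := by linarith
    have := div_eq_zero_iff.1 hc2.symm
    rcases this with h3 | h3
    · linarith
    · exact absurd h3 hne
  -- the mean vanishes on the ray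
  have hn0 : ∀ t < t1, ∀ r, ρ < r → r < R → n (t, (r, 0)) = 0 := by
    intro t0 ht0 r0 hr1 hr2
    by_contra hne
    have hr0 : 0 < r0 := lt_of_le_of_lt hρ hr1
    have hcn : Continuous n := D.cn.continuous
    have hW1 : IsOpen {z : ℝ × ℝ | n (z.1, (z.2, 0)) ≠ 0} :=
      isOpen_ne_fun (hcn.comp (by fun_prop)) continuous_const
    have hW2 : IsOpen {z : ℝ × ℝ | z.1 < t1} := isOpen_lt continuous_fst continuous_const
    obtain ⟨δ, hδ, hball⟩ := Metric.isOpen_iff.1 (hW1.inter hW2) (t0, r0) ⟨hne, ht0⟩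
    have hwin : ∀ t r : ℝ, |t - t0| < δ → |r - r0| < δ → n (t, (r, 0)) ≠ 0 ∧ t < t1 := by
      intro t r h1 h2
      have : ((t, r) : ℝ × ℝ) ∈ Metric.ball ((t0, r0) : ℝ × ℝ) δ := by
        rw [Metric.mem_ball, Prod.dist_eq]
        simp only [Real.dist_eq]
        exact max_lt h1 h2
      exact hball this
    set U : Set (ℝ × ℝ) := {q | q ∈ Ring ρ R ∧ |Real.sqrt (q.1 ^ 2 + q.2 ^ 2) - r0| < δ} with hU
    have hUo : IsOpen U := by
      have h1 : IsOpen {q : ℝ × ℝ | ρ ^ 2 < q.1 ^ 2 + q.2 ^ 2} :=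
        isOpen_lt continuous_const (by fun_prop)
      have h2 : IsOpen {q : ℝ × ℝ | q.1 ^ 2 + q.2 ^ 2 < R ^ 2} :=
        isOpen_lt (by fun_prop) continuous_const
      have h3 : IsOpen {q : ℝ × ℝ | |Real.sqrt (q.1 ^ 2 + q.2 ^ 2) - r0| < δ} :=
        isOpen_lt (by fun_prop) continuous_const
      exact (h1.inter h2).inter h3
    have hUn : U.Nonempty := by
      refine ⟨(r0, 0), CX2_ring hρ hr1 hr2, ?_⟩
      have : Real.sqrt (((r0, 0) : ℝ × ℝ).1 ^ 2 + ((r0, 0) : ℝ × ℝ).2 ^ 2) = r0 := by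
        show Real.sqrt (r0 ^ 2 + 0 ^ 2) = r0
        rw [show r0 ^ 2 + (0 : ℝ) ^ 2 = r0 ^ 2 by ring, Real.sqrt_sq hr0.le]
      rw [this]
      simpa using hδ
    obtain ⟨K, hK⟩ := D.bd
    have hK0 : 0 ≤ K := (abs_nonneg _).trans (hK (0, 0, 0)).1
    have hall := hYI Ω (t0 - δ) (t0 + δ) ν (2 * K) a b h.op h.con.isPreconnected h.nu
      ((D.ca.of_le (by norm_num)).contDiffOn) ((D.cb.of_le (by norm_num)).contDiffOn)
      (fun t _ q hq => ?_) ⟨U, hUo, hUn, fun q hq => hsub hq.1, fun t ht q hq => ?_⟩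
    · obtain ⟨q, hq, hq2⟩ := h.nz t0 ht0.le
      exact hq2 (hall t0 ⟨by linarith, by linarith⟩ q hq)
    · -- the heat inequality
      obtain ⟨k1, k2, k3, k4, k5, k6⟩ := hK (t, q)
      have ea := D.ea t q hq
      have eb := D.eb t q hq
      have ha : heat ν a (t, q) = -(m (t, q) * dx a (t, q) + n (t, q) * dy a (t, q)
          + a (t, q) * dx m (t, q) + b (t, q) * dy m (t, q)) := by
        unfold heat
        linarith
      have hb : heat ν b (t, q) = -(m (t, q) * dx b (t, q) + n (t, q) * dy b (t, q)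
          + a (t, q) * dx n (t, q) + b (t, q) * dy n (t, q)) := by
        unfold heat
        linarith
      rw [ha, hb, abs_neg, abs_neg]
      have tri : ∀ x y z w : ℝ, |x + y + z + w| ≤ |x| + |y| + |z| + |w| := by
        intro x y z w
        have h1 := abs_add_le (x + y + z) w
        have h2 := abs_add_le (x + y) z
        have h3 := abs_add_le x y
        linarith
      have t1' := tri (m (t, q) * dx a (t, q)) (n (t, q) * dy a (t, q))
        (a (t, q) * dx m (t, q)) (b (t, q) * dy m (t, q))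
      have t2' := tri (m (t, q) * dx b (t, q)) (n (t, q) * dy b (t, q))
        (a (t, q) * dx n (t, q)) (b (t, q) * dy n (t, q))
      simp only [abs_mul] at t1' t2'
      have u1 : |m (t, q)| * |dx a (t, q)| ≤ K * |dx a (t, q)| :=
        mul_le_mul_of_nonneg_right k1 (abs_nonneg _)
      have u2 : |n (t, q)| * |dy a (t, q)| ≤ K * |dy a (t, q)| :=
        mul_le_mul_of_nonneg_right k2 (abs_nonneg _)
      have u3 : |a (t, q)| * |dx m (t, q)| ≤ |a (t, q)| * K :=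
        mul_le_mul_of_nonneg_left k3 (abs_nonneg _)
      have u4 : |b (t, q)| * |dy m (t, q)| ≤ |b (t, q)| * K :=
        mul_le_mul_of_nonneg_left k4 (abs_nonneg _)
      have u5 : |m (t, q)| * |dx b (t, q)| ≤ K * |dx b (t, q)| :=
        mul_le_mul_of_nonneg_right k1 (abs_nonneg _)
      have u6 : |n (t, q)| * |dy b (t, q)| ≤ K * |dy b (t, q)| :=
        mul_le_mul_of_nonneg_right k2 (abs_nonneg _)
      have u7 : |a (t, q)| * |dx n (t, q)| ≤ |a (t, q)| * K :=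
        mul_le_mul_of_nonneg_left k5 (abs_nonneg _)
      have u8 : |b (t, q)| * |dy n (t, q)| ≤ |b (t, q)| * K :=
        mul_le_mul_of_nonneg_left k6 (abs_nonneg _)
      have v1 : 0 ≤ K * |dx a (t, q)| := mul_nonneg hK0 (abs_nonneg _)
      have v2 : 0 ≤ K * |dy a (t, q)| := mul_nonneg hK0 (abs_nonneg _)
      have v3 : 0 ≤ K * |dx b (t, q)| := mul_nonneg hK0 (abs_nonneg _)
      have v4 : 0 ≤ K * |dy b (t, q)| := mul_nonneg hK0 (abs_nonneg _)
      nlinarith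
    · -- the difference vanishes on the open set
      obtain ⟨hqR, hqd⟩ := hq
      obtain ⟨s1, s2⟩ := CX2_sqrt hρ hρR hqR
      have ht' : |t - t0| < δ := by
        rw [abs_lt]
        constructor <;> linarith [ht.1, ht.2]
      obtain ⟨w1, w2⟩ := hwin t _ ht' hqd
      have hb0 : b (t, (Real.sqrt (q.1 ^ 2 + q.2 ^ 2), 0)) = 0 := by
        rcases mul_eq_zero.1 (hprod t w2 _ s1 s2) with h3 | h3
        · exact h3
        · exact absurd h3 w1
      exact CX2_rot hRX hRI w2 hqR (fab t w2 _ s1 s2).1 hb0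
  refine ⟨hsub, fun t ht q hq => ?_, hRI⟩
  obtain ⟨s1, s2⟩ := CX2_sqrt hρ hρR hq
  exact CX2_rot hRX hRIm ht hq (fmn t ht _ s1 s2).1 (hn0 t ht _ s1 s2)

end NS

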